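import Pool.Agent.MWG.Stmts

/-!
# Block MWG, row CTX: a two letter identity in a context
-/

set_option autoImplicit false

namespace Pool.Agent.MWG.H36

open Pool.Agent.Helper14_MV Pool.Agent.Helper2_MV Pool.Agent.MVO Pool.Agent.MWL Pool.Agent.MWS

/-- the letters `0`, `1` replaced by `x`, `y` -/
def hh (x y : ℕ) : ℕ → List ℕ := fun c => if c = 0 then [x] else [y]

theorem flat_sb (x y : ℕ) (l : List ℕ) : l.flatMap (hh x y) = sb x y l := by
  induction l with
  | nil => rfl
  | cons a l ih =>
    rw [List.flatMap_cons, ih]
    unfold hh sb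
    rw [List.map_cons]
    by_cases h : a = 0
    · rw [if_pos h, if_pos h]
      rfl
    · rw [if_neg h, if_neg h]
      rfl

theorem flat_r0 (x y m : ℕ) : (List.replicate m 0).flatMap (hh x y) = List.replicate m x := by
  rw [flat_sb]
  unfold sb
  rw [List.map_replicate, if_pos rfl]

theorem flat_r1 (x y m : ℕ) : (List.replicate m 1).flatMap (hh x y) = List.replicate m y := by
  rw [flat_sb]
  unfold sb
  rw [List.map_replicate, if_neg (by norm_num)]

theorem blkOk_cb {k : ℕ} {a b : ℕ → ℕ} {i : ℕ} {l : List ℕ}
    (hl : ∀ c ∈ l, c = 0 ∨ c = 1) : BlkOk k (cb a b i l) := by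
  intro j _ c hc
  have h1 : c = 0 ∨ c = 1 := by
    unfold cb at hc
    by_cases h : j = i
    · rw [if_pos h] at hc
      exact hl c hc
    · rw [if_neg h, List.mem_append] at hc
      rcases hc with hc | hc
      · exact Or.inl (List.eq_of_mem_replicate hc)
      · exact Or.inr (List.eq_of_mem_replicate hc)
  rintro ⟨h2, _⟩
  omega

/-- one step of DBA -/
def St (l t : List ℕ) : Prop := t = l ∨ ∃ (x : ℕ) (P Q : List ℕ) (n : ℕ), 1 ≤ n ∧ 2 ≤ l.count x ∧
  l = P ++ x :: Q ∧ t = P ++ List.replicate n x ++ Q

theorem block {k : ℕ} {C : ℕ → List ℕ} {i x y : ℕ} (hV : Vis k (ty C x) (ty C y) i)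
    (hD : Dbl k C) (j : ℕ) : ∃ P Q : List ℕ, j ≤ k → j ≠ i →
      St (C j) (P ++ (List.replicate (hm (ty C x) j) x ++ List.replicate (hm (ty C y) j) y) ++ Q) := by
  by_cases hjk : j ≤ k ∧ j ≠ i
  · obtain ⟨hjk, hji⟩ := hjk
    obtain ⟨hik, ⟨hai, ha0⟩, hbi, hun⟩ := hV
    by_cases haj : ty C x j = 0
    · have e1 : hm (ty C x) j = 0 := by
        unfold hm
        rw [if_pos haj]
      by_cases hbj : ty C y j = 0
      · have e2 : hm (ty C y) j = 0 := by
          unfold hm
          rw [if_pos hbj]
        refine ⟨C j, [], fun _ _ => Or.inl ?_⟩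
        rw [e1, e2]
        simp
      · have hy : y ∈ C j := List.count_pos_iff.1 (Nat.pos_of_ne_zero hbj)
        obtain ⟨P, Q, hPQ⟩ := List.append_of_mem hy
        by_cases hl : Lf (ty C y) j
        · have e2 : hm (ty C y) j = 1 := by
            unfold hm
            rw [if_neg hbj, if_pos hl]
          refine ⟨P, Q, fun _ _ => Or.inl ?_⟩
          rw [e1, e2, hPQ]
          simp
        · have e2 : hm (ty C y) j = 2 := by
            unfold hm
            rw [if_neg hbj, if_neg hl]
          refine ⟨P, Q, fun _ _ => Or.inr ⟨y, P, Q, 2, by norm_num, ?_, hPQ, ?_⟩⟩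
          · rcases hD j hjk y hy with h | h
            · exact absurd h hl
            · exact h
          · rw [e1, e2]
            simp
    · have hij : i < j := by
        rcases lt_trichotomy j i with h | h | h
        · exact absurd (ha0 j h) haj
        · exact absurd h hji
        · exact h
      have hbj : ty C y j = 0 := by
        rcases hun j hij hjk with h | h
        · exact absurd h haj
        · exact h
      have hl : ¬ Lf (ty C x) j := by
        intro h
        have := h.2 i hij
        omega
      have e1 : hm (ty C x) j = 2 := by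
        unfold hm
        rw [if_neg haj, if_neg hl]
      have e2 : hm (ty C y) j = 0 := by
        unfold hm
        rw [if_pos hbj]
      have hx : x ∈ C j := List.count_pos_iff.1 (Nat.pos_of_ne_zero haj)
      obtain ⟨P, Q, hPQ⟩ := List.append_of_mem hx
      refine ⟨P, Q, fun _ _ => Or.inr ⟨x, P, Q, 2, by norm_num, ?_, hPQ, ?_⟩⟩
      · rcases hD j hjk x hx with h | h
        · exact absurd h hl
        · exact h
      · rw [e1, e2]
        simp
  · exact ⟨[], [], fun h1 h2 => absurd ⟨h1, h2⟩ hjk⟩

theorem ctx (hDBA : MWS.DbaStmt) : CtxStmt := by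
  intro β θ hβ hle k C i A D x y l l' _ hV hD hl hl' hok hok' h
  choose P Q hPQ using fun j => block hV hD j
  obtain ⟨T, hT⟩ : ∃ T : ℕ → List ℕ, T = fun j => P j ++ (List.replicate (hm (ty C x) j) x ++
      List.replicate (hm (ty C y) j) y) ++ Q j := ⟨_, rfl⟩
  have hTj : ∀ j, T j = P j ++ (List.replicate (hm (ty C x) j) x ++
      List.replicate (hm (ty C y) j) y) ++ Q j := fun j => by rw [hT]
  have step : ∀ L : List ℕ, OkB k (Function.update C i L) →
      RR β (asm k (Function.update C i L)) (asm k (Function.update T i L)) := by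
    intro L hL
    refine hDBA β hβ.itr k _ _ hL (fun j hj => ?_)
    by_cases hji : j = i
    · subst hji
      rw [Function.update_self, Function.update_self]
      exact Or.inl rfl
    · rw [Function.update_of_ne hji, Function.update_of_ne hji, hTj]
      exact hPQ j hj hji
  have mid : RR θ (asm k (Function.update T i (A ++ sb x y l ++ D)))
      (asm k (Function.update T i (A ++ sb x y l' ++ D))) := by
    have h1 := rr_ins θ (Function.update P i A) (Function.update Q i D) (hh x y)
      (blkOk_cb hl) (blkOk_cb hl') h
    have key : ∀ l : List ℕ, (fun j => Function.update P i A j ++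
        (cb (ty C x) (ty C y) i l j).flatMap (hh x y) ++ Function.update Q i D j) =
        Function.update T i (A ++ sb x y l ++ D) := by
      intro l
      funext j
      by_cases h : j = i
      · subst h
        rw [Function.update_self, Function.update_self, Function.update_self]
        unfold cb
        rw [if_pos rfl, flat_sb]
      · rw [Function.update_of_ne h, Function.update_of_ne h, Function.update_of_ne h, hTj]
        unfold cb
        rw [if_neg h, List.flatMap_append, flat_r0, flat_r1]
    rw [key, key] at h1
    exact h1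
  exact θ.trans (hle _ _ (step _ hok)) (θ.trans mid (hle _ _ (step _ hok').symm))

end Pool.Agent.MWG.H36
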